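import Pool.Agent.MDG.StmtsZ

/-!
# Squad MDG, row TRC: the sum of the leverages
-/

set_option autoImplicit false

open Finset Matrix

namespace Pool.Agent.MDG.H97

theorem dot_eq_trace {I : Type} [Fintype I] [DecidableEq I] (B : Matrix I I ℝ) (x : I → ℝ) :
    x ⬝ᵥ (B *ᵥ x) = trace (B * vecMulVec x x) := by
  rw [Matrix.mul_vecMulVec, Matrix.trace_vecMulVec, dotProduct_comm]

theorem trc : TrcStmt := by
  intro I E _ _ _ c x h
  have hdet : IsUnit (∑ e, c e • vecMulVec (x e) (x e)).det := h.det_pos.ne'.isUnit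
  have h1 : ∀ e, c e * (x e ⬝ᵥ ((∑ e, c e • vecMulVec (x e) (x e))⁻¹ *ᵥ x e))
      = trace ((∑ e, c e • vecMulVec (x e) (x e))⁻¹ * (c e • vecMulVec (x e) (x e))) := by
    intro e
    rw [dot_eq_trace, Matrix.mul_smul, Matrix.trace_smul, smul_eq_mul]
  rw [Finset.sum_congr rfl (fun e _ => h1 e), ← Matrix.trace_sum, ← Finset.mul_sum,
    Matrix.nonsing_inv_mul _ hdet, Matrix.trace_one]

end Pool.Agent.MDG.H97
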